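import Pool.Agent.H207.TF.Stm

/-!
# Project TF: families in the stratum have tangent vectors in `Tan`
-/

set_option autoImplicit false

open Metric Set MeasureTheory Filter Topology Polynomial
open scoped OnePoint ENNReal

namespace Pool.Agent.H307.TF207

open Pool.Agent.H792R2.CE Pool.Agent.H211.LR Pool.Agent.H211.AD Pool.Agent.H207.TF Pool.Agent.H211.LD

/-- divisibility by a power of `X - c` and Hasse derivatives -/
theorem dvd_iff_hasse (f : ℂ[X]) (c : ℂ) (n : ℕ) :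
    (X - C c) ^ n ∣ f ↔ ∀ j < n, (hasseDeriv j f).eval c = 0 := by
  rw [X_sub_C_pow_dvd_iff, X_pow_dvd_iff]
  have e : ∀ j, (f.comp (X + C c)).coeff j = (hasseDeriv j f).eval c := by
    intro j
    rw [← taylor_coeff, taylor_apply]
  simp only [e]

/-- the numerator of `f - f(c)` has a zero of order one more than the Wronskian -/
theorem dvd_succ (h Q : ℂ[X]) (c : ℂ) (hh : h.eval c = 0) (hQ : Q.eval c ≠ 0) (k : ℕ)
    (hk : (X - C c) ^ k ∣ wr h Q) : (X - C c) ^ (k + 1) ∣ h := by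
  induction k with
  | zero => rw [zero_add, pow_one]; exact dvd_iff_isRoot.2 hh
  | succ k ih =>
    obtain ⟨g, hg⟩ := ih (dvd_trans (pow_dvd_pow _ (Nat.le_succ k)) hk)
    have hX : (X - C c : ℂ[X]) ≠ 0 := X_sub_C_ne_zero c
    have e : wr h Q = (X - C c) ^ k * (C ((k : ℂ) + 1) * g * Q + (X - C c) * (derivative g * Q - g * derivative Q)) := by
      rw [wr, hg, derivative_mul, derivative_pow, derivative_sub, derivative_X, derivative_C, sub_zero, mul_one,
        Nat.add_sub_cancel]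
      push_cast
      rw [C_add, C_1, pow_succ]
      ring_nf
    rw [e, pow_succ] at hk
    have h1 : (X - C c) ∣ C ((k : ℂ) + 1) * g * Q + (X - C c) * (derivative g * Q - g * derivative Q) :=
      (mul_dvd_mul_iff_left (pow_ne_zero k hX)).1 hk
    have h2 := (dvd_add_left (Dvd.intro _ rfl)).1 h1
    have h3 := dvd_iff_isRoot.1 h2
    rw [IsRoot, eval_mul, eval_mul, eval_C] at h3
    have h4 : g.eval c = 0 := by
      rcases mul_eq_zero.1 h3 with h | h
      · rcases mul_eq_zero.1 h with h | h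
        · exact absurd h (Nat.cast_add_one_ne_zero k)
        · exact h
      · exact absurd h hQ
    rw [hg, pow_succ _ (k + 1)]
    exact mul_dvd_mul_left _ (dvd_iff_isRoot.2 h4)

/-- derivative of the value at a moving point -/
theorem hasDerivAt_eval (w : ℂ → ℂ[X]) (w' : ℂ[X]) (D : ℕ) (hD : ∀ s, (w s).natDegree ≤ D) (hD' : w'.natDegree ≤ D)
    (hw : ∀ n, HasDerivAt (fun s => (w s).coeff n) (w'.coeff n) 0) (c : ℂ → ℂ) (c' : ℂ) (hc : HasDerivAt c c' 0) :
    HasDerivAt (fun s => (w s).eval (c s)) (w'.eval (c 0) + (derivative (w 0)).eval (c 0) * c') 0 := by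
  have e1 : (fun s => (w s).eval (c s)) = fun s => ∑ n ∈ Finset.range (D + 1), (w s).coeff n * c s ^ n := by
    funext s
    exact eval_eq_sum_range' (Nat.lt_succ_of_le (hD s)) _
  have e2 : w'.eval (c 0) + (derivative (w 0)).eval (c 0) * c' =
      ∑ n ∈ Finset.range (D + 1), (w'.coeff n * c 0 ^ n + (w 0).coeff n * ((n : ℂ) * c 0 ^ (n - 1) * c')) := by
    rw [Finset.sum_add_distrib, ← eval_eq_sum_range' (Nat.lt_succ_of_le hD')]
    congr 1
    rw [derivative_eval, Polynomial.sum_over_range' _ _ (D + 1) (Nat.lt_succ_of_le (hD 0)), Finset.sum_mul]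
    · refine Finset.sum_congr rfl fun n _ => ?_
      ring
    · intro n
      simp
  rw [e1, e2]
  refine HasDerivAt.fun_sum fun n _ => ?_
  exact (hw n).mul (hc.pow n)

/-- derivatives of the coefficients -/
theorem coeff_deriv {d : ℕ} {p : ℂ → EE d} {v : EE d} (hp : HasDerivAt p v 0) (n : ℕ) :
    HasDerivAt (fun s => (PP (p s)).coeff n) ((PP v).coeff n) 0 ∧
    HasDerivAt (fun s => (QQ (p s)).coeff n) ((QQ v).coeff n) 0 := by
  have h1 := hasDerivAt_pi.1 hp
  simp only [PP, QQ, pol_coeff]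
  by_cases h : n < d + 1
  · simp only [dif_pos h]
    exact ⟨h1 (0, ⟨n, h⟩), h1 (1, ⟨n, h⟩)⟩
  · simp only [dif_neg h]
    exact ⟨hasDerivAt_const _ _, hasDerivAt_const _ _⟩

theorem coeff_hasse {w : ℂ → ℂ[X]} {w' : ℂ[X]} (hw : ∀ n, HasDerivAt (fun s => (w s).coeff n) (w'.coeff n) 0)
    (j n : ℕ) : HasDerivAt (fun s => (hasseDeriv j (w s)).coeff n) ((hasseDeriv j w').coeff n) 0 := by
  simp only [hasseDeriv_coeff]
  exact (hw (n + j)).const_mul _

theorem tan_one {d : ℕ} {p : ℂ → EE d} {v : EE d} (hp : HasDerivAt p v 0) (c : ℂ → ℂ) (k : ℕ)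
    (hc : DifferentiableAt ℂ c 0) (hdvd : ∀ᶠ s in 𝓝 (0 : ℂ), (X - C (c s)) ^ k ∣ wr (PP (p s)) (QQ (p s)))
    (hQ : (QQ (p 0)).eval (c 0) ≠ 0) :
    DifferentiableAt ℂ (fun s => rf (PP (p s)) (QQ (p s)) (c s)) 0 ∧
    (X - C (c 0)) ^ k ∣ varS (p 0) v - C (deriv (fun s => rf (PP (p s)) (QQ (p s)) (c s)) 0) * QQ (p 0) ^ 2 := by
  have hPc := fun n => (coeff_deriv hp n).1
  have hQc := fun n => (coeff_deriv hp n).2
  have hPe := hasDerivAt_eval (fun s => PP (p s)) (PP v) d (fun s => PP_deg _) (PP_deg _) hPc c _ hc.hasDerivAt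
  have hQe := hasDerivAt_eval (fun s => QQ (p s)) (QQ v) d (fun s => QQ_deg _) (QQ_deg _) hQc c _ hc.hasDerivAt
  have hV : DifferentiableAt ℂ (fun s => rf (PP (p s)) (QQ (p s)) (c s)) 0 := by
    unfold rf
    exact hPe.differentiableAt.fun_div hQe.differentiableAt hQ
  refine ⟨hV, ?_⟩
  obtain ⟨V, hVd⟩ : ∃ V : ℂ → ℂ, V = fun s => rf (PP (p s)) (QQ (p s)) (c s) := ⟨_, rfl⟩
  rw [← hVd] at hV ⊢
  obtain ⟨a, ha⟩ : ∃ a : ℂ, a = deriv V 0 := ⟨_, rfl⟩
  rw [← ha]
  have hVa : HasDerivAt V a 0 := by rw [ha]; exact hV.hasDerivAt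
  have hQn : ∀ᶠ s in 𝓝 (0 : ℂ), (QQ (p s)).eval (c s) ≠ 0 := hQe.continuousAt.eventually_ne hQ
  -- the numerators
  have key : ∀ᶠ s in 𝓝 (0 : ℂ), (X - C (c s)) ^ (k + 1) ∣ PP (p s) - C (V s) * QQ (p s) := by
    filter_upwards [hQn, hdvd] with s h1 h2
    apply dvd_succ _ (QQ (p s)) _ _ h1 k
    · have e : wr (PP (p s) - C (V s) * QQ (p s)) (QQ (p s)) = wr (PP (p s)) (QQ (p s)) := by
        simp only [wr, derivative_sub, derivative_mul, derivative_C]
        ring
      rw [e]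
      exact h2
    · rw [eval_sub, eval_mul, eval_C, hVd]
      simp only [rf]
      rw [div_mul_cancel₀ _ h1, sub_self]
  have hw : ∀ n, HasDerivAt (fun s => (PP (p s) - C (V s) * QQ (p s)).coeff n)
      ((PP v - C a * QQ (p 0) - C (V 0) * QQ v).coeff n) 0 := by
    intro n
    have h1 := (hPc n).sub (hVa.mul (hQc n))
    simp only [coeff_sub, coeff_C_mul]
    rw [sub_sub]
    exact h1
  have hdeg : ∀ s, (PP (p s) - C (V s) * QQ (p s)).natDegree ≤ d := fun s =>
    (natDegree_sub_le _ _).trans (max_le (PP_deg _) ((natDegree_C_mul_le _ _).trans (QQ_deg _)))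
  have hdeg' : (PP v - C a * QQ (p 0) - C (V 0) * QQ v).natDegree ≤ d :=
    (natDegree_sub_le _ _).trans (max_le ((natDegree_sub_le _ _).trans (max_le (PP_deg _)
      ((natDegree_C_mul_le _ _).trans (QQ_deg _)))) ((natDegree_C_mul_le _ _).trans (QQ_deg _)))
  have h0 := key.self_of_nhds
  have hd1 : (X - C (c 0)) ^ k ∣ PP v - C a * QQ (p 0) - C (V 0) * QQ v := by
    rw [dvd_iff_hasse]
    intro j hj
    have h1 := hasDerivAt_eval (fun s => hasseDeriv j (PP (p s) - C (V s) * QQ (p s))) _ d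
      (fun s => (natDegree_hasseDeriv_le _ _).trans ((Nat.sub_le _ _).trans (hdeg s)))
      ((natDegree_hasseDeriv_le _ _).trans ((Nat.sub_le _ _).trans hdeg')) (coeff_hasse hw j) c _ hc.hasDerivAt
    have h2 : (fun s => (hasseDeriv j (PP (p s) - C (V s) * QQ (p s))).eval (c s)) =ᶠ[𝓝 0] fun _ => (0 : ℂ) := by
      filter_upwards [key] with s hs
      exact (dvd_iff_hasse _ _ _).1 hs j (by omega)
    have h3 := (h1.congr_of_eventuallyEq h2.symm).unique (hasDerivAt_const (0 : ℂ) (0 : ℂ))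
    have h4 : (derivative (hasseDeriv j (PP (p 0) - C (V 0) * QQ (p 0)))).eval (c 0) = 0 := by
      have e : derivative (hasseDeriv j (PP (p 0) - C (V 0) * QQ (p 0))) =
          (1 + j).choose 1 • hasseDeriv (1 + j) (PP (p 0) - C (V 0) * QQ (p 0)) := by
        have h5 := LinearMap.congr_fun (hasseDeriv_comp (R := ℂ) 1 j) (PP (p 0) - C (V 0) * QQ (p 0))
        rw [LinearMap.comp_apply, hasseDeriv_one, LinearMap.smul_apply] at h5
        exact h5
      rw [e, eval_smul, (dvd_iff_hasse _ _ _).1 h0 (1 + j) (by omega), smul_zero]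
    rw [h4, zero_mul, add_zero] at h3
    exact h3
  have e : varS (p 0) v - C a * QQ (p 0) ^ 2 = QQ (p 0) * (PP v - C a * QQ (p 0) - C (V 0) * QQ v) -
      (PP (p 0) - C (V 0) * QQ (p 0)) * QQ v := by
    rw [varS]; ring
  rw [e]
  exact dvd_sub (Dvd.dvd.mul_left hd1 _) (Dvd.dvd.mul_right ((pow_dvd_pow _ (Nat.le_succ k)).trans h0) _)

theorem t_TANF : S_TANF := by
  classical
  intro d p v hp r c m hc hdvd hQ hz hco
  obtain ⟨a, ha⟩ : ∃ a : Fin r → ℂ, a = fun i => deriv (fun s => rf (PP (p s)) (QQ (p s)) (c i s)) 0 := ⟨_, rfl⟩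
  have hau : ∀ i j, rf (PP (p 0)) (QQ (p 0)) (c i 0) = rf (PP (p 0)) (QQ (p 0)) (c j 0) → a i = a j := by
    intro i j hij
    rw [ha]
    exact Filter.EventuallyEq.deriv_eq (hco i j hij)
  refine ⟨fun y => if h : ∃ i, rf (PP (p 0)) (QQ (p 0)) (c i 0) = y then a h.choose else 0, ?_⟩
  intro z hzz
  obtain ⟨i, hi, hm⟩ := hz z hzz
  have hex : ∃ j, rf (PP (p 0)) (QQ (p 0)) (c j 0) = rf (PP (p 0)) (QQ (p 0)) z := ⟨i, by rw [hi]⟩
  simp only
  rw [dif_pos hex, hau hex.choose i (by rw [hex.choose_spec, hi]), hm, ← hi, ha]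
  exact (tan_one hp (c i) (m i) (hc i) (hdvd i) (hQ i)).2

end Pool.Agent.H307.TF207
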